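import Pool.Agent.Y1.KN.Stm2

/-!
# The number of orthogonal copies of a minimal space
-/

set_option linter.unusedSectionVars false
set_option linter.unusedVariables false

namespace Pool.Agent.Y333.KN

open Finset Module Pool.Agent.TH170.MF Pool.Agent.TH170.QC Pool.Agent.TH170.QE
  Pool.Agent.TH170.FW Pool.Agent.Y1.KN

section basic

variable {G X : Type*} [Group G] [MulAction G X] [Fintype X]

/-- The value of an equivariant map on a translate. -/
theorem homs_tr {S S' : Submodule ℚ (X → ℚ)} (hS : Invariant G S) {A : S →ₗ[ℚ] (X → ℚ)}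
    (hA : A ∈ homs G S S') (γ : G) (s : S) :
    A ⟨tr γ s, tr_mem hS γ s.2⟩ = tr γ (A s) := by
  funext x
  exact hA.2 γ s _ (fun y => rfl) x

/-- An equivariant map that is not zero is injective on a minimal space. -/
theorem inj_of_ne {c : X → X} {S S' : Submodule ℚ (X → ℚ)} (hS : S ∈ MinInv G c)
    {A : S →ₗ[ℚ] (X → ℚ)} (hA : A ∈ homs G S S') (hne : A ≠ 0) : Function.Injective A := by
  obtain ⟨h0, hi, ho, hmin⟩ := hS
  let K : Submodule ℚ (X → ℚ) := (LinearMap.ker A).map S.subtype
  have hK : Invariant G K := by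
    rintro γ _ ⟨s, hs, rfl⟩
    refine ⟨⟨tr γ s, tr_mem hi γ s.2⟩, ?_, rfl⟩
    change A _ = 0
    rw [homs_tr hi hA]
    have h1 : A s = 0 := hs
    rw [h1, map_zero]
  have hle : K ≤ S := by
    rintro _ ⟨s, -, rfl⟩
    exact s.2
  rw [← LinearMap.ker_eq_bot, LinearMap.ker_eq_bot']
  intro s hs
  rcases hmin K hK hle with h | h
  · have h1 : (s : X → ℚ) ∈ K := ⟨s, hs, rfl⟩
    rw [h, Submodule.mem_bot] at h1
    exact Subtype.ext h1
  · exfalso
    apply hne
    refine LinearMap.ext fun t => ?_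
    have h1 : (t : X → ℚ) ∈ K := by rw [h]; exact t.2
    obtain ⟨t', ht', h2⟩ := h1
    have h3 : t' = t := Subtype.ext h2
    rw [← h3]
    exact ht'

/-- The image of a minimal space under an equivariant map that is not zero is minimal. -/
theorem range_minInv {c : G} {S S' : Submodule ℚ (X → ℚ)}
    (hS : S ∈ MinInv G (fun x : X => c • x)) {A : S →ₗ[ℚ] (X → ℚ)} (hA : A ∈ homs G S S')
    (hne : A ≠ 0) : LinearMap.range A ∈ MinInv G (fun x : X => c • x) := by
  have hS' := hS
  obtain ⟨h0, hi, ho, hmin⟩ := hS'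
  refine ⟨?_, ?_, ?_, ?_⟩
  · intro h
    apply hne
    rwa [LinearMap.range_eq_bot] at h
  · rintro γ _ ⟨s, rfl⟩
    exact ⟨_, homs_tr hi hA γ s⟩
  · rintro _ ⟨s, rfl⟩ x
    have h1 := hA.2 c s (-s) (fun y => by
      rw [Submodule.coe_neg, Pi.neg_apply]
      exact (ho s s.2 y).symm) x
    rw [map_neg, Pi.neg_apply] at h1
    exact h1.symm
  · intro S₁ hS₁ hle
    let K : Submodule ℚ (X → ℚ) := (S₁.comap A).map S.subtype
    have hK : Invariant G K := by
      rintro γ _ ⟨s, hs, rfl⟩
      refine ⟨⟨tr γ s, tr_mem hi γ s.2⟩, ?_, rfl⟩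
      change A _ ∈ S₁
      rw [homs_tr hi hA]
      exact hS₁ γ _ hs
    have hKS : K ≤ S := by
      rintro _ ⟨s, -, rfl⟩
      exact s.2
    rcases hmin K hK hKS with h | h
    · left
      rw [eq_bot_iff]
      intro w hw
      obtain ⟨s, rfl⟩ := hle hw
      have h1 : (s : X → ℚ) ∈ K := ⟨s, hw, rfl⟩
      rw [h, Submodule.mem_bot] at h1
      have h2 : s = 0 := Subtype.ext h1
      rw [h2, map_zero]
      exact Submodule.zero_mem _
    · right
      apply le_antisymm hle
      rintro _ ⟨t, rfl⟩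
      have h1 : (t : X → ℚ) ∈ K := by rw [h]; exact t.2
      obtain ⟨t', ht', h2⟩ := h1
      have h3 : t' = t := Subtype.ext h2
      rw [← h3]
      exact ht'

/-- Translates of a fixed vector. -/
theorem dot_fixed {x₀ : X} {S : Submodule ℚ (X → ℚ)} {u : X → ℚ} (hu : u ∈ fixedPart G x₀ S)
    {γ δ : G} (h : γ • x₀ = δ • x₀) (s : X → ℚ) : dot X (tr γ s) u = dot X (tr δ s) u := by
  have h1 : tr γ s = tr (δ⁻¹ * γ) (tr δ s) := by
    rw [tr_tr, mul_inv_cancel_left]
  rw [h1, dot_tr]
  congr 1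
  funext x
  refine hu.2 _ ?_ x
  rw [mul_inv_rev, inv_inv, mul_smul, ← h, inv_smul_smul]

end basic

section killers

variable {G X : Type*} [Group G] [Fintype G] [MulAction G X] [Fintype X]

/-- Equivariant images have the same class functions. -/
theorem killers_range {S S' : Submodule ℚ (X → ℚ)} (hi : Invariant G S) {A : S →ₗ[ℚ] (X → ℚ)}
    (hA : A ∈ homs G S S') (hinj : Function.Injective A) :
    killers G ((LinearMap.range A : Submodule ℚ (X → ℚ)) : Set (X → ℚ)) =
      killers G (S : Set (X → ℚ)) := by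
  have key : ∀ (a : ConjClasses G → ℚ) (s : S) (x : X),
      ∑ γ : G, a (ConjClasses.mk γ) * A s (γ • x) =
        A (∑ γ : G, a (ConjClasses.mk γ) • ⟨tr γ s, tr_mem hi γ s.2⟩) x := by
    intro a s x
    rw [map_sum, Finset.sum_apply]
    refine sum_congr rfl fun γ _ => ?_
    rw [map_smul, homs_tr hi hA, Pi.smul_apply, smul_eq_mul, tr_apply]
  have key2 : ∀ (a : ConjClasses G → ℚ) (s : S) (x : X),
      ((∑ γ : G, a (ConjClasses.mk γ) • (⟨tr γ s, tr_mem hi γ s.2⟩ : S) : S) : X → ℚ) x =
        ∑ γ : G, a (ConjClasses.mk γ) * (s : X → ℚ) (γ • x) := by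
    intro a s x
    rw [Submodule.coe_sum, Finset.sum_apply]
    rfl
  ext a
  constructor
  · intro ha s hs x
    have h1 : A (∑ γ : G, a (ConjClasses.mk γ) • ⟨tr γ s, tr_mem hi γ hs⟩) = 0 := by
      funext y
      rw [← key a ⟨s, hs⟩ y]
      exact ha _ ⟨⟨s, hs⟩, rfl⟩ y
    have h2 := hinj (h1.trans (map_zero A).symm)
    have h3 := key2 a ⟨s, hs⟩ x
    rw [h2] at h3
    exact h3.symm
  · rintro ha _ ⟨s, rfl⟩ x
    rw [key a s x]
    have h1 : (∑ γ : G, a (ConjClasses.mk γ) • (⟨tr γ s, tr_mem hi γ s.2⟩ : S) : S) = 0 := by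
      apply Subtype.ext
      funext y
      rw [key2 a s y]
      exact ha s s.2 y
    rw [h1, map_zero]
    rfl

variable [DecidableEq X] [MulAction.IsPretransitive G X]

/-- Minimal spaces with the same class functions are isomorphic. -/
theorem exists_iso {c : X → X} {S S' : Submodule ℚ (X → ℚ)} (hS : S ∈ MinInv G c)
    (hS' : S' ∈ MinInv G c)
    (hK : killers G (S : Set (X → ℚ)) = killers G (S' : Set (X → ℚ))) :
    ∃ T ∈ homs G S S', Function.Injective T ∧ ∀ s ∈ S', ∃ s', T s' = s := by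
  obtain ⟨A, hA, hAS, s₀, hs₀, hne⟩ := exists_equivariant hS.2.1 hS.1 hS'.2.1 hS'.1 hK
  have hT : A.comp S.subtype ∈ homs G S S' := by
    refine ⟨fun s => hAS _, fun γ s t h x => ?_⟩
    have h1 : (t : X → ℚ) = fun y => (s : X → ℚ) (γ • y) := funext h
    change A (t : X → ℚ) x = A (s : X → ℚ) (γ • x)
    rw [h1, hA]
  have hT0 : A.comp S.subtype ≠ 0 := by
    intro h
    apply hne
    exact congrArg (fun F : S →ₗ[ℚ] (X → ℚ) => F ⟨s₀, hs₀⟩) h
  refine ⟨_, hT, inj_of_ne hS hT hT0, ?_⟩
  intro s hs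
  have hI : Invariant G (S.map A) := by
    rintro γ _ ⟨t, ht, rfl⟩
    refine ⟨fun y => t (γ • y), hS.2.1 γ t ht, ?_⟩
    funext x
    rw [hA]
  have hle : S.map A ≤ S' := by
    rintro _ ⟨t, ht, rfl⟩
    exact hAS t
  rcases hS'.2.2.2 _ hI hle with h | h
  · exfalso
    apply hne
    have h1 : A s₀ ∈ S.map A := ⟨s₀, hs₀, rfl⟩
    rw [h] at h1
    exact h1
  · rw [← h] at hs
    obtain ⟨t, ht, rfl⟩ := hs
    exact ⟨⟨t, ht⟩, rfl⟩

/-- Minimal spaces with the same class functions have the same dimension. -/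
theorem finrank_eq_of_killers {c : X → X} {S S' : Submodule ℚ (X → ℚ)} (hS : S ∈ MinInv G c)
    (hS' : S' ∈ MinInv G c)
    (hK : killers G (S : Set (X → ℚ)) = killers G (S' : Set (X → ℚ))) :
    finrank ℚ S' = finrank ℚ S := by
  obtain ⟨T, hT, hinj, hsurj⟩ := exists_iso hS hS' hK
  let T₀ : S ≃ₗ[ℚ] S' := LinearEquiv.ofBijective (T.codRestrict S' hT.1)
    ⟨fun s t h => hinj (congrArg Subtype.val h), fun s => by
      obtain ⟨s', hs'⟩ := hsurj s s.2
      exact ⟨s', Subtype.ext hs'⟩⟩
  exact (LinearEquiv.finrank_eq T₀).symm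

end killers

/-- The families of pairwise orthogonal minimal spaces with the same class functions as `S`. -/
structure Good (G : Type) {X : Type} [Group G] [Fintype G] [MulAction G X] [Fintype X] (c : G)
    (S : Submodule ℚ (X → ℚ)) (F : Finset (Submodule ℚ (X → ℚ))) : Prop where
  mem : ∀ S' ∈ F, S' ∈ MinInv G (fun x : X => c • x)
  kil : ∀ S' ∈ F, killers G (S' : Set (X → ℚ)) = killers G (S : Set (X → ℚ))
  orth : ∀ S' ∈ F, ∀ S'' ∈ F, S' ≠ S'' → S'' ≤ (dot X).orthogonal S'

section main

variable {G X : Type} [Group G] [Fintype G] [MulAction G X] [Fintype X] [DecidableEq X]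
  [MulAction.IsPretransitive G X] {c : G} {S : Submodule ℚ (X → ℚ)}

theorem exists_max (hc : c * c = 1) (hfree : ∀ x : X, c • x ≠ x) (S : Submodule ℚ (X → ℚ)) :
    ∃ F, Good G c S F ∧ ∀ F', Good G c S F' → F'.card ≤ F.card := by
  classical
  have hcc : ∀ x : X, c • (c • x) = x := fun x => by rw [← mul_smul, hc, one_smul]
  obtain ⟨T, hT⟩ := exists_transversal (c := fun x : X => c • x) hcc hfree
  have hg := card_transversal (c := fun x : X => c • x) hcc hT
  have hb : ∀ F, Good G c S F → F.card ≤ T.card := by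
    intro F hF
    have h1 := sum_finrank_le (c := fun x : X => c • x) hcc hfree F
      (fun S' hS' => (hF.mem S' hS').2.2.1) hF.orth hg
    refine le_trans ?_ h1
    rw [card_eq_sum_ones]
    refine sum_le_sum fun S' hS' => ?_
    have h2 : 0 < finrank ℚ S' := by
      rw [Module.finrank_pos_iff]
      exact Submodule.nontrivial_iff_ne_bot.2 (hF.mem S' hS').1
    exact h2
  have h0 : ∃ F, Good G c S F ∧ F.card = 0 :=
    ⟨∅, ⟨fun S' h => absurd h (notMem_empty _), fun S' h => absurd h (notMem_empty _),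
      fun S' h => absurd h (notMem_empty _)⟩, card_empty⟩
  obtain ⟨F, hF, hcard⟩ := Nat.findGreatest_spec (P := fun n => ∃ F, Good G c S F ∧ F.card = n)
    (Nat.zero_le T.card) h0
  refine ⟨F, hF, fun F' hF' => ?_⟩
  rw [hcard]
  exact Nat.le_findGreatest (hb F' hF') ⟨F', hF', rfl⟩

/-- In a maximal family, every equivariant map is the sum of its components. -/
theorem sum_proj (hS : S ∈ MinInv G (fun x : X => c • x)) {F : Finset (Submodule ℚ (X → ℚ))}
    (hF : Good G c S F) (hmax : ∀ F', Good G c S F' → F'.card ≤ F.card)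
    {A : S →ₗ[ℚ] (X → ℚ)} (hA : A ∈ homs G S ⊤) (h : ∀ S' ∈ F, ∀ s, proj S' (A s) = 0) :
    A = 0 := by
  classical
  by_contra hne
  have hinj := inj_of_ne hS hA hne
  have hmin := range_minInv hS hA hne
  have hkil := killers_range hS.2.1 hA hinj
  have horth : ∀ S' ∈ F, LinearMap.range A ≤ (dot X).orthogonal S' := by
    rintro S' hS' _ ⟨s, rfl⟩
    have h1 := sub_proj_mem S' (A s)
    rwa [h S' hS' s, sub_zero] at h1
  have hnot : LinearMap.range A ∉ F := by
    intro hmem
    apply hmin.1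
    rw [eq_bot_iff]
    intro w hw
    have h1 := horth _ hmem hw
    rw [Submodule.mem_bot]
    exact dot_self ((mem_orth _ w).1 h1 w hw)
  have hF' : Good G c S (insert (LinearMap.range A) F) := by
    refine ⟨?_, ?_, ?_⟩
    · intro S' hS'
      rcases mem_insert.1 hS' with rfl | h1
      · exact hmin
      · exact hF.mem S' h1
    · intro S' hS'
      rcases mem_insert.1 hS' with rfl | h1
      · exact hkil
      · exact hF.kil S' h1
    · intro S' hS' S'' hS'' hne'
      rcases mem_insert.1 hS' with rfl | h1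
      · rcases mem_insert.1 hS'' with rfl | h2
        · exact absurd rfl hne'
        · intro w hw
          rw [mem_orth]
          intro s hs
          have h3 := (mem_orth S'' s).1 (horth S'' h2 hs) w hw
          rw [← h3]
          exact sum_congr rfl fun x _ => mul_comm _ _
      · rcases mem_insert.1 hS'' with rfl | h2
        · exact horth S' h1
        · exact hF.orth S' h1 S'' h2 hne'
  have h1 := hmax _ hF'
  rw [card_insert_of_notMem hnot] at h1
  omega

/-- The equivariant map given by a fixed vector. -/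
noncomputable def mk (γx : X → G) (u : X → ℚ) (S : Submodule ℚ (X → ℚ)) : S →ₗ[ℚ] (X → ℚ) where
  toFun s x := dot X (tr (γx x) s) u
  map_add' s t := by
    funext x
    rw [Submodule.coe_add, map_add, map_add, LinearMap.add_apply]
    rfl
  map_smul' r s := by
    funext x
    rw [Submodule.coe_smul, map_smul, map_smul, LinearMap.smul_apply]
    rfl

theorem mk_apply (γx : X → G) (u : X → ℚ) (s : S) (x : X) :
    mk γx u S s x = dot X (tr (γx x) s) u := rfl

theorem mk_mem {x₀ : X} {γx : X → G} (hγ : ∀ x, γx x • x₀ = x) {u : X → ℚ}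
    (hu : u ∈ fixedPart G x₀ S) : mk γx u S ∈ homs G S ⊤ := by
  refine ⟨fun s => Submodule.mem_top, fun δ s t h x => ?_⟩
  have h1 : (t : X → ℚ) = tr δ s := funext h
  rw [mk_apply, mk_apply, h1, tr_tr]
  refine dot_fixed hu ?_ _
  rw [mul_smul, hγ, hγ]

theorem mult_aux (hS : S ∈ MinInv G (fun x : X => c • x)) (x₀ : X)
    {F : Finset (Submodule ℚ (X → ℚ))}
    (hF : Good G c S F) (hmax : ∀ F', Good G c S F' → F'.card ≤ F.card) :
    finrank ℚ (fixedPart G x₀ S) ≤ edim G S * F.card := by
  classical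
  choose γx hγ using fun x : X => MulAction.exists_smul_eq G x₀ x
  let Φ : fixedPart G x₀ S →ₗ[ℚ] (∀ S' : F, homs G S (S' : Submodule ℚ (X → ℚ))) :=
    { toFun := fun u S' => ⟨(proj S'.1).comp (mk γx u.1 S), fun s => proj_mem _ _, by
        intro γ s t h x
        have h1 : mk γx u.1 S t = tr γ (mk γx u.1 S s) :=
          funext fun y => (mk_mem hγ u.2).2 γ s t h y
        rw [LinearMap.comp_apply, LinearMap.comp_apply, h1,
          proj_tr (hF.mem S'.1 S'.2).2.1]
        rfl⟩
      map_add' := by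
        intro u v
        funext S'
        apply Subtype.ext
        refine LinearMap.ext fun s => ?_
        change proj S'.1 _ = proj S'.1 _ + proj S'.1 _
        rw [← map_add]
        congr 1
        funext x
        rw [Pi.add_apply, mk_apply, mk_apply, mk_apply, Submodule.coe_add, map_add]
      map_smul' := by
        intro r u
        funext S'
        apply Subtype.ext
        refine LinearMap.ext fun s => ?_
        change proj S'.1 _ = r • proj S'.1 _
        rw [← map_smul]
        congr 1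
        funext x
        rw [Pi.smul_apply, mk_apply, mk_apply, Submodule.coe_smul, map_smul] }
  have hinj : Function.Injective Φ := by
    intro u₁ u₂ hu₁₂
    set u : fixedPart G x₀ S := u₁ - u₂ with hu
    have h1 : mk γx u.1 S = 0 := by
      refine sum_proj hS hF hmax (mk_mem hγ u.2) fun S' hS' s => ?_
      have h2 : proj S' (mk γx u₁.1 S s) = proj S' (mk γx u₂.1 S s) :=
        congrArg (fun f => (f ⟨S', hS'⟩).1 s) hu₁₂
      have h3 : mk γx u.1 S s = mk γx u₁.1 S s - mk γx u₂.1 S s := by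
        funext x
        rw [Pi.sub_apply, mk_apply, mk_apply, mk_apply, hu, Submodule.coe_sub, map_sub]
      rw [h3, map_sub, h2, sub_self]
    have h2 := congrFun (congrArg (fun f : S →ₗ[ℚ] (X → ℚ) => f ⟨u.1, u.2.1⟩) h1) x₀
    have h3 : dot X (tr (γx x₀) u.1) u.1 = 0 := h2
    rw [dot_fixed u.2 (γ := γx x₀) (δ := 1) (by rw [hγ, one_smul]), tr_one] at h3
    exact sub_eq_zero.1 (Subtype.ext (dot_self h3) : u₁ - u₂ = 0)
  have hfree : ∀ S' : F, Module.Free ℚ (homs G S (S' : Submodule ℚ (X → ℚ))) := fun S' =>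
    @Module.Free.of_divisionRing ℚ (homs G S (S' : Submodule ℚ (X → ℚ))) _
      (Submodule.addCommGroup _) _
  have h1 := LinearMap.finrank_le_finrank_of_injective hinj
  rw [Module.finrank_pi_fintype] at h1
  refine h1.trans (le_of_eq ?_)
  have h2 : ∀ S' : F, finrank ℚ (homs G S (S' : Submodule ℚ (X → ℚ))) = edim G S := fun S' =>
    (homs_of_killers hS (hF.mem S'.1 S'.2) (hF.kil S'.1 S'.2).symm).1
  rw [sum_congr rfl fun S' _ => h2 S', sum_const, card_univ, Fintype.card_coe, smul_eq_mul,
    mul_comm]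

end main

/-- **The number of orthogonal copies of a minimal space.** -/
theorem mult : P_mult := by
  intro G X _ _ _ _ _ _ c hc hfree hcen S hS x₀
  obtain ⟨F, hF, hmax⟩ := exists_max hc hfree S
  refine ⟨F, fun S' hS' => ⟨hF.mem S' hS', hF.kil S' hS', ?_⟩, hF.orth,
    mult_aux hS x₀ hF hmax⟩
  exact finrank_eq_of_killers hS (hF.mem S' hS') (hF.kil S' hS').symm

end Pool.Agent.Y333.KN
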